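import Pool.Agent.W331.CR.All

/-!
One finitely generated group for the interval and the circle, and an element killed by all
homomorphisms to the groups of `C^{k+1}` diffeomorphisms (on top of the starting library
`Pool.Agent.W331.CR`).
-/

set_option autoImplicit false

open Set Filter Topology Function
open scoped ContDiff

namespace Pool.Agent.Q194.Lip

open Pool.Agent.W331.CR

lemma kill {P : Type} [Group P] (Q : Subgroup P) (k : ℕ)
    (hno : ∀ (G : Type) [Group G] (t v h y f : G), Rel02 k t v h y f → y ≠ 1 →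
      ¬ ∃ φ : G →* Q, Injective φ)
    {G : Type} [Group G] {t v h y f : G} (R : Rel02 k t v h y f) (φ : G →* Q) : φ y = 1 := by
  by_contra hne
  have R1 := R.map φ.rangeRestrict
  refine hno φ.range _ _ _ _ _ R1 (fun h1 => hne ?_) ⟨φ.range.subtype, Subtype.coe_injective⟩
  exact congrArg Subtype.val h1

theorem main (k : ℕ) (hk : 1 ≤ k) : ∃ (G : Type) (_ : Group G) (z : G), Group.FG G ∧ z ≠ 1 ∧
    (∃ φ : G →* (Icc (0:ℝ) 1 ≃o Icc (0:ℝ) 1), Injective φ ∧ ∀ g, φ g ∈ LipI k) ∧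
    (∃ φ : G →* Equiv.Perm (AddCircle (1:ℝ)), Injective φ ∧ ∀ g, φ g ∈ LipS k) ∧
    (∀ φ : G →* DiffI (k + 1 : ℕ), φ z = 1) ∧ (∀ φ : G →* DiffS (k + 1 : ℕ), φ z = 1) := by
  have h1 : S_exist02 := s_exist02 s_flataff s_conj s_conjlip s_f02
  have h2 : S_no02S := s_no02S t_rigid02 s_liftcomm s_liftbs s_setupS
  have h3 : S_no02I := s_no02I t_rigid02 s_setupI
  obtain ⟨t, v, h, y, f, R, hy1, hS⟩ := h1 k hk
  set S : Set (ℝ ≃o ℝ) := {t, v, h, y, f} with hSdef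
  have hcl := lipcs_closure s_lipmul k hk S hS
  have hsub : ∀ F ∈ S, F ∈ Sup := fun F hF => (hS F hF).1.1.1
  set T : Sup := ⟨t, hsub t (by simp [hSdef])⟩
  set V : Sup := ⟨v, hsub v (by simp [hSdef])⟩
  set Hh : Sup := ⟨h, hsub h (by simp [hSdef])⟩
  set Y : Sup := ⟨y, hsub y (by simp [hSdef])⟩
  set Ff : Sup := ⟨f, hsub f (by simp [hSdef])⟩
  set N := Subgroup.closure ({T, V, Hh, Y, Ff} : Set Sup) with hN
  have hNS : ∀ F ∈ N, (F : ℝ ≃o ℝ) ∈ LipCS k ∧ ((F : ℝ ≃o ℝ)⁻¹ : ℝ ≃o ℝ) ∈ LipCS k := by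
    intro F hF
    apply hcl
    have h6 : Sup.subtype F ∈ N.map Sup.subtype := Subgroup.mem_map_of_mem _ hF
    rw [hN, MonoidHom.map_closure] at h6
    refine Subgroup.closure_mono ?_ h6
    rintro _ ⟨Z, hZ, rfl⟩
    simp only [mem_insert_iff, mem_singleton_iff] at hZ
    rcases hZ with rfl | rfl | rfl | rfl | rfl <;> simp [hSdef, T, V, Hh, Y, Ff]
  have hfin : ({T, V, Hh, Y, Ff} : Set Sup).Finite := by
    simp
  have R1 : Rel02 k T V Hh Y Ff := Rel02.of_map (Sup.subtype) Subtype.coe_injective R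
  have mem : ∀ F ∈ ({T, V, Hh, Y, Ff} : Set Sup), F ∈ N := fun F hF => Subgroup.subset_closure hF
  have R2 : Rel02 k (⟨T, mem _ (by simp)⟩ : N) ⟨V, mem _ (by simp)⟩ ⟨Hh, mem _ (by simp)⟩
      ⟨Y, mem _ (by simp)⟩ ⟨Ff, mem _ (by simp)⟩ :=
    Rel02.of_map N.subtype Subtype.coe_injective R1
  refine ⟨N, inferInstance, ⟨Y, mem _ (by simp)⟩, ?_, ?_, ?_, ?_, ?_, ?_⟩
  · rw [Group.fg_iff_subgroup_fg, Subgroup.fg_iff]
    exact ⟨_, rfl, hfin⟩
  · intro h7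
    apply hy1
    have h8 : Y = 1 := congrArg Subtype.val h7
    exact congrArg Subtype.val h8
  · obtain ⟨φ, hφ, hφ2⟩ := s_toI
    refine ⟨φ.comp N.subtype, hφ.comp Subtype.coe_injective, ?_⟩
    rintro ⟨F, hF⟩
    change φ F ∈ LipI k
    have hext : ∀ (F : Sup), ∀ x ∈ Icc (0:ℝ) 1, ext01 (φ F) x = (F : ℝ ≃o ℝ) x := by
      intro F x hx
      rw [← hφ2 F ⟨x, hx⟩]
      exact ext01_coe (φ F) ⟨x, hx⟩
    obtain ⟨⟨⟨g1, g2, g3⟩, K, hK⟩, -⟩ := hNS F hF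
    refine ⟨⟨?_, ?_⟩, K, ?_⟩
    · exact g2.contDiffOn.congr (hext F)
    · rw [← map_inv]
      exact ContDiffOn.congr (f := ((F : ℝ ≃o ℝ)⁻¹ : ℝ ≃o ℝ)) g3.contDiffOn (hext F⁻¹)
    · have e : EqOn (iteratedDerivWithin k (ext01 (φ F)) (Icc 0 1))
          (iteratedDeriv k (F : ℝ ≃o ℝ)) (Icc 0 1) := by
        intro x hx
        rw [iteratedDerivWithin_congr (hext F) hx]
        exact iteratedDerivWithin_eq_iteratedDeriv (uniqueDiffOn_Icc zero_lt_one)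
          g2.contDiffAt hx
      intro a ha b hb
      rw [e ha, e hb]
      exact hK a b
  · obtain ⟨φ, hφ, hφ2⟩ := s_toS
    refine ⟨φ.comp N.subtype, hφ.comp Subtype.coe_injective, ?_⟩
    rintro ⟨F, hF⟩
    change φ F ∈ LipS k
    obtain ⟨P, p1, p2, p3, p4, p5⟩ := hφ2 F
    obtain ⟨⟨⟨g1, g2, g3⟩, hK⟩, -⟩ := hNS F hF
    exact ⟨P, ⟨p1, p3 _ g2, p4 _ g3⟩, p5 k g2 hK, p2⟩
  · intro φ
    exact kill (DiffI (k + 1 : ℕ)) k (fun G _ t v h y f => h3 k hk G t v h y f) R2 φ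
  · intro φ
    exact kill (DiffS (k + 1 : ℕ)) k (fun G _ t v h y f => h2 k hk G t v h y f) R2 φ

end Pool.Agent.Q194.Lip
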